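import Pool.Agent.Q62.OB.Main

/-!
MP_325d65_an, Q1: the answer is no.  There is a system on `Ω = (0,1)` satisfying (H1), (H2)
and (H_L) with `L = 1/2`, for which with `T = 1` some optimal observation profile takes only
values strictly between `0` and `1`.
-/

namespace Pool.Agent.Results.MP_325d65_an.NotBangBang

open MeasureTheory Filter Set Pool.Agent.Q62.OB

theorem result : ∃ (S : ℝ → H →L[ℂ] H) (φ : HilbertBasis ℕ ℂ H) (lam : ℕ → ℂ)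
    (f : ℕ → ℝ → ℂ),
    IsSemigroup S ∧ Dense (Dom S) ∧ (∀ y, S 1 y = 0 → y = 0) ∧
    H1 S φ lam ∧ H2 φ f ∧ HL lam f (1 / 2) ∧
    ∃ a ∈ UL (1 / 2), (∀ x, 0 < a x ∧ a x < 1) ∧ ∀ b ∈ UL (1 / 2), CT S 1 b ≤ CT S 1 a :=
  ⟨S, bas, Pool.Agent.Q62.OB.lam, fr, S_semi, dom_dense, S_inj 1, S_H1, S_H2, S_HL, a0, a0_UL,
    fun x => ⟨a0_pos x, a0_lt x⟩, fun _ hb => (CT_le hb).trans CT_a0⟩

end Pool.Agent.Results.MP_325d65_an.NotBangBang
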